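import Mathlib

set_option autoImplicit false

namespace Pool.Agent.H.MP_8790d8_co

def P1 (r M : ℝ) : ℝ := M ^ 7 + r ^ 2 * (1 - M ^ 5) + r ^ 5 * (1 - M ^ 2)
def P2 (r M : ℝ) : ℝ := M ^ 16 + 2 * r ^ 8 * (1 - M ^ 8)
def P (r M : ℝ) : ℝ := P1 r M * P2 r M
def Adm (β r M : ℝ) : Prop := 0 ≤ r ∧ r ≤ M ∧ M ≤ 1 ∧ M ^ 2 + 2 * r * (1 - M) = β

theorem pow_diff (a b : ℝ) (ha : 0 ≤ a) (hab : a ≤ b) (n : ℕ) :
    b ^ (n + 1) - a ^ (n + 1) ≤ (n + 1) * (b - a) * b ^ n := by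
  induction n with
  | zero => simp
  | succ n ih =>
    have hb : 0 ≤ b := ha.trans hab
    have h1 : a ^ (n + 1) ≤ b ^ (n + 1) := pow_le_pow_left₀ ha hab _
    have h2 := mul_le_mul_of_nonneg_left ih hb
    have h3 := mul_le_mul_of_nonneg_left h1 (sub_nonneg.mpr hab)
    push_cast
    calc b ^ (n + 1 + 1) - a ^ (n + 1 + 1)
        = b * (b ^ (n + 1) - a ^ (n + 1)) + (b - a) * a ^ (n + 1) := by ring
      _ ≤ b * ((n + 1) * (b - a) * b ^ n) + (b - a) * b ^ (n + 1) := add_le_add h2 h3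
      _ = _ := by ring

theorem P_nonneg {β r M : ℝ} (h : Adm β r M) : 0 ≤ P1 r M ∧ 0 ≤ P2 r M := by
  obtain ⟨h1, h2, h3, _⟩ := h
  have hM : 0 ≤ M := h1.trans h2
  have a : ∀ k : ℕ, 0 ≤ 1 - M ^ k := fun k => sub_nonneg.mpr (pow_le_one₀ hM h3)
  have a5 := a 5
  have a2 := a 2
  have a8 := a 8
  unfold P1 P2
  constructor <;> positivity

theorem sfacts {ε s : ℝ} (he : 0 ≤ ε) (he2 : ε ≤ 1 / 5) (h : Adm (ε ^ 2) s s) :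
    ε ^ 2 / 2 ≤ s ∧ s ≤ 13 / 25 * ε ^ 2 ∧ s * (2 - s) = ε ^ 2 := by
  obtain ⟨h1, _, h3, h4⟩ := h
  have e : s * (2 - s) = ε ^ 2 := by linarith
  have e2 : ε ^ 2 ≤ 1 / 25 := by nlinarith
  have a1 : s ≤ ε ^ 2 := by nlinarith
  refine ⟨by nlinarith, by nlinarith, e⟩

theorem rfacts {ε r M s : ℝ} (he : 0 ≤ ε) (h : Adm (ε ^ 2) r M) (hs : Adm (ε ^ 2) s s) :
    M ≤ ε ∧ (M - r) ^ 2 / 2 ≤ s - r := by
  obtain ⟨h1, h2, h3, h4⟩ := h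
  obtain ⟨s1, _, s3, s4⟩ := hs
  have p := mul_nonneg h1 (sub_nonneg.mpr h3)
  refine ⟨abs_le_of_sq_le_sq' (by linarith) he |>.2, ?_⟩
  have e : (s - r) * (2 - r - s) = (M - r) ^ 2 := by linarith
  have a : r ≤ s := by
    have : (1 - s) ^ 2 ≤ (1 - r) ^ 2 := by nlinarith [sq_nonneg (M - r)]
    have := (abs_le_of_sq_le_sq' this (by linarith)).2
    linarith
  nlinarith [mul_nonneg (sub_nonneg.mpr a) (add_nonneg h1 s1)]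

theorem small {ε r M s : ℝ} (he : 0 ≤ ε) (he2 : ε ≤ 1 / 5) (h : Adm (ε ^ 2) r M)
    (hs : Adm (ε ^ 2) s s) (hM : M ≤ 7 / 10 * ε) : P r M ≤ P s s := by
  obtain ⟨s1, s2, s3⟩ := sfacts he he2 hs
  obtain ⟨r1, r2⟩ := rfacts he h hs
  have n1 := P_nonneg h
  have n2 := P_nonneg hs
  obtain ⟨h1, h2, h3, h4⟩ := h
  have M0 : 0 ≤ M := h1.trans h2
  have e2 : ε ^ 2 ≤ 1 / 5 * ε := by nlinarith
  have s0 : 0 ≤ s := hs.1
  have rs : r ≤ s := by nlinarith [sq_nonneg (M - r)]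
  have s4 : s ≤ 1 / 40 := by linarith
  have y0 : 0 ≤ M - r := by linarith
  have d0 : 0 ≤ s - r := by linarith
  refine mul_le_mul ?_ ?_ n1.2 n2.1
  · have a1 := pow_diff r M h1 h2 1
    have a2 := pow_diff r M h1 h2 4
    have a3 := pow_diff r s h1 rs 6
    have a4 : r ^ 5 ≤ s ^ 5 := pow_le_pow_left₀ h1 rs 5
    have a5 : r ^ 5 ≤ M ^ 5 := pow_le_pow_left₀ h1 h2 5
    norm_num at a1 a2 a3
    have b1 : (M ^ 2 - r ^ 2) * (M ^ 5 - r ^ 5) ≤ (2 * (M - r) * M) * (5 * (M - r) * M ^ 4) :=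
      mul_le_mul (by linarith) (by linarith) (by linarith) (by positivity)
    have b2 : M ^ 5 ≤ ε ^ 2 * (1 / 5) ^ 3 := by
      calc M ^ 5 = M ^ 2 * M ^ 3 := by ring
        _ ≤ _ := by gcongr; linarith
    have b3 : s ^ 5 ≤ (1 / 40) ^ 5 := pow_le_pow_left₀ s0 s4 5
    have b4 : (s - r) * s * s ^ 5 ≤ (s - r) * s * (1 / 40) ^ 5 := by gcongr
    have b5 : (M - r) ^ 2 / 2 * (ε ^ 2 / 2) ≤ (s - r) * s := by gcongr
    have b6 : (M - r) ^ 2 * M ^ 5 ≤ (M - r) ^ 2 * (ε ^ 2 * (1 / 5) ^ 3) := by gcongr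
    have b7 : 0 ≤ (s - r) * r := mul_nonneg d0 h1
    have b8 : 0 ≤ (M - r) ^ 2 * ε ^ 2 := by positivity
    unfold P1
    nlinarith
  · have r3 : r ≤ 13 / 125 * ε := by linarith
    have r4 : 51 / 200 * ε ^ 2 ≤ r := by
      have : M ^ 2 ≤ (7 / 10 * ε) ^ 2 := pow_le_pow_left₀ M0 hM 2
      nlinarith [mul_nonneg h1 M0]
    have a1 : M ^ 8 - r ^ 8 ≤ (M - r) * (1 / 10 * ε ^ 7) := by
      calc M ^ 8 - r ^ 8 = (M - r) * (M ^ 7 + M ^ 6 * r + M ^ 5 * r ^ 2 + M ^ 4 * r ^ 3 +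
            M ^ 3 * r ^ 4 + M ^ 2 * r ^ 5 + M * r ^ 6 + r ^ 7) := by ring
        _ ≤ (M - r) * ((7 / 10 * ε) ^ 7 + (7 / 10 * ε) ^ 6 * (13 / 125 * ε) +
            (7 / 10 * ε) ^ 5 * (13 / 125 * ε) ^ 2 + (7 / 10 * ε) ^ 4 * (13 / 125 * ε) ^ 3 +
            (7 / 10 * ε) ^ 3 * (13 / 125 * ε) ^ 4 + (7 / 10 * ε) ^ 2 * (13 / 125 * ε) ^ 5 +
            (7 / 10 * ε) * (13 / 125 * ε) ^ 6 + (13 / 125 * ε) ^ 7) := by gcongr
        _ ≤ _ := by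
          refine mul_le_mul_of_nonneg_left ?_ y0
          have : 0 ≤ ε ^ 7 := by positivity
          linarith
    have a2 : r ^ 8 ≤ M ^ 8 := pow_le_pow_left₀ h1 h2 8
    have a3 : (M ^ 8 - r ^ 8) ^ 2 ≤ ((M - r) * (1 / 10 * ε ^ 7)) ^ 2 :=
      pow_le_pow_left₀ (by linarith) a1 2
    have a4 : (M - r) ^ 2 / 2 * ((ε ^ 2 / 2) ^ 7 + (ε ^ 2 / 2) ^ 6 * (51 / 200 * ε ^ 2)) ≤
        s ^ 8 - r ^ 8 := by
      calc _ ≤ (s - r) * (s ^ 7 + s ^ 6 * r) := by gcongr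
        _ ≤ (s - r) * (s ^ 7 + s ^ 6 * r + (s ^ 5 * r ^ 2 + s ^ 4 * r ^ 3 +
            s ^ 3 * r ^ 4 + s ^ 2 * r ^ 5 + s * r ^ 6 + r ^ 7)) :=
          mul_le_mul_of_nonneg_left (le_add_of_nonneg_right (by positivity)) d0
        _ = _ := by ring
    have a5 : s ^ 8 ≤ (1 / 40) ^ 8 := pow_le_pow_left₀ s0 s4 8
    have a6 : r ^ 8 ≤ s ^ 8 := pow_le_pow_left₀ h1 rs 8
    have a7 : (s ^ 8 - r ^ 8) * (199 / 100) ≤ (s ^ 8 - r ^ 8) * (2 - s ^ 8 - r ^ 8) :=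
      mul_le_mul_of_nonneg_left (by linarith) (by linarith)
    have a8 : 0 ≤ (M - r) ^ 2 * ε ^ 14 := by positivity
    unfold P2
    nlinarith

end Pool.Agent.H.MP_8790d8_co
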