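import Pool.Agent.H.MP_8790d8_co.A

set_option autoImplicit false

namespace Pool.Agent.H.MP_8790d8_co

noncomputable def G1 (A θ ε u : ℝ) : ℝ :=
  θ ^ 7 * ε ^ 3 + A ^ 2 * u * (1 + θ * ε + (θ * ε) ^ 2 + (θ * ε) ^ 3 + (θ * ε) ^ 4) +
    A ^ 5 * u ^ 4 * ε ^ 6 * (1 + θ * ε)

noncomputable def G2 (A θ ε u : ℝ) : ℝ :=
  θ ^ 16 + 2 * A ^ 8 * u ^ 7 * (1 + θ * ε + (θ * ε) ^ 2 + (θ * ε) ^ 3 + (θ * ε) ^ 4 +
    (θ * ε) ^ 5 + (θ * ε) ^ 6 + (θ * ε) ^ 7)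

theorem normal (A θ ε u : ℝ) (hu : u * (1 - θ * ε) = 1) :
    P (ε ^ 2 * A * u) (θ * ε) = ε ^ 20 * (G1 A θ ε u * G2 A θ ε u) := by
  have e1 : P1 (ε ^ 2 * A * u) (θ * ε) = ε ^ 4 * G1 A θ ε u := by
    unfold P1 G1
    linear_combination (ε ^ 4 * A ^ 2 * u * (1 + θ * ε + (θ * ε) ^ 2 + (θ * ε) ^ 3 + (θ * ε) ^ 4) +
      ε ^ 10 * A ^ 5 * u ^ 4 * (1 + θ * ε)) * hu
  have e2 : P2 (ε ^ 2 * A * u) (θ * ε) = ε ^ 16 * G2 A θ ε u := by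
    unfold P2 G2
    linear_combination (ε ^ 16 * 2 * A ^ 8 * u ^ 7 * (1 + θ * ε + (θ * ε) ^ 2 + (θ * ε) ^ 3 +
      (θ * ε) ^ 4 + (θ * ε) ^ 5 + (θ * ε) ^ 6 + (θ * ε) ^ 7)) * hu
  unfold P
  rw [e1, e2]; ring

theorem adm_form {ε θ r : ℝ} (h : Adm (ε ^ 2) r (θ * ε)) (h1 : θ * ε < 1) :
    r = ε ^ 2 * ((1 - θ ^ 2) / 2) * (1 - θ * ε)⁻¹ := by
  have : 1 - θ * ε ≠ 0 := by linarith
  rw [eq_mul_inv_iff_mul_eq₀ this]
  linarith [h.2.2.2]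

theorem Gmono {A θ ε ε' u u' : ℝ} (hA : 0 ≤ A) (h0 : 0 ≤ ε) (h1 : ε ≤ ε') (h2 : ε' ≤ 1 / 5)
    (t1 : 7 / 10 ≤ θ) (t2 : θ ≤ 1) (hu : u * (1 - θ * ε) = 1) (hu' : u' * (1 - θ * ε') = 1) :
    G1 A θ ε u * G2 A θ ε u * (1 - 7 / 10 * ε) ≤
      G1 A θ ε' u' * G2 A θ ε' u' * (1 - 7 / 10 * ε') := by
  have t0 : 0 ≤ θ := by linarith
  have x1 : θ * ε ≤ θ * ε' := mul_le_mul_of_nonneg_left h1 t0
  have x0 : 0 ≤ θ * ε := mul_nonneg t0 h0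
  have x2 : θ * ε' ≤ 1 / 5 := by nlinarith
  have eu : u = (1 - θ * ε)⁻¹ := eq_inv_of_mul_eq_one_left hu
  have eu' : u' = (1 - θ * ε')⁻¹ := eq_inv_of_mul_eq_one_left hu'
  have u0 : 0 ≤ u := by rw [eu]; exact inv_nonneg.mpr (by linarith)
  have u1 : u ≤ u' := by rw [eu, eu']; exact inv_anti₀ (by linarith) (by linarith)
  have u0' : 0 ≤ u' := u0.trans u1
  have e0' : 0 ≤ ε' := h0.trans h1
  have w1 : u * (1 - 7 / 10 * ε) ≤ u' * (1 - 7 / 10 * ε') := by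
    rw [eu, eu', inv_mul_eq_div, inv_mul_eq_div, div_le_div_iff₀ (by linarith) (by linarith)]
    nlinarith [mul_nonneg (sub_nonneg.mpr t1) (sub_nonneg.mpr h1)]
  have w0 : 0 ≤ u * (1 - 7 / 10 * ε) := mul_nonneg u0 (by linarith)
  have w0' := w0.trans w1
  have v1 : ε * (1 - 7 / 10 * ε) ≤ ε' * (1 - 7 / 10 * ε') := by
    nlinarith [mul_nonneg (sub_nonneg.mpr h1) (sub_nonneg.mpr h2)]
  have v0 : 0 ≤ ε * (1 - 7 / 10 * ε) := mul_nonneg h0 (by linarith)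
  have a1 : G1 A θ ε u * (1 - 7 / 10 * ε) ≤ G1 A θ ε' u' * (1 - 7 / 10 * ε') := by
    calc _ = θ ^ 7 * ε ^ 2 * (ε * (1 - 7 / 10 * ε)) + A ^ 2 * (u * (1 - 7 / 10 * ε)) *
          (1 + θ * ε + (θ * ε) ^ 2 + (θ * ε) ^ 3 + (θ * ε) ^ 4) +
          A ^ 5 * u ^ 3 * (u * (1 - 7 / 10 * ε)) * ε ^ 6 * (1 + θ * ε) := by unfold G1; ring
      _ ≤ θ ^ 7 * ε' ^ 2 * (ε' * (1 - 7 / 10 * ε')) + A ^ 2 * (u' * (1 - 7 / 10 * ε')) *
          (1 + θ * ε' + (θ * ε') ^ 2 + (θ * ε') ^ 3 + (θ * ε') ^ 4) +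
          A ^ 5 * u' ^ 3 * (u' * (1 - 7 / 10 * ε')) * ε' ^ 6 * (1 + θ * ε') := by gcongr
      _ = _ := by unfold G1; ring
  have a2 : G2 A θ ε u ≤ G2 A θ ε' u' := by unfold G2; gcongr
  have a3 : 0 ≤ G2 A θ ε u := by unfold G2; positivity
  have a4 : 0 ≤ G1 A θ ε' u' * (1 - 7 / 10 * ε') :=
    mul_nonneg (by unfold G1; positivity) (by linarith)
  have := mul_le_mul a1 a2 a3 a4
  linarith

theorem Sform {ε s : ℝ} (h : s * (2 - s) = ε ^ 2) :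
    P s s * (2 - s) ^ 10 = ε ^ 20 * ((1 + s ^ 3 - s ^ 5) * (2 - s ^ 8)) := by
  rw [show ε ^ 20 = (ε ^ 2) ^ 10 by ring, ← h]
  unfold P P1 P2
  ring

theorem Smono {ε ε' s s' : ℝ} (h0 : 0 ≤ ε) (h1 : ε ≤ ε') (h2 : ε' ≤ 27 / 200)
    (hs : Adm (ε ^ 2) s s) (hs' : Adm (ε' ^ 2) s' s') :
    P s' s' * (1 - 7 / 10 * ε') * ε ^ 20 ≤ P s s * (1 - 7 / 10 * ε) * ε' ^ 20 := by
  have e0' : 0 ≤ ε' := h0.trans h1
  obtain ⟨_, s2, s3⟩ := sfacts h0 (by linarith) hs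
  obtain ⟨_, t2, t3⟩ := sfacts e0' (by linarith) hs'
  have s0 := hs.1
  have t0 := hs'.1
  have q1 : ε ^ 2 ≤ ε' ^ 2 := pow_le_pow_left₀ h0 h1 2
  have q2 : ε' ^ 2 ≤ (27 / 200) ^ 2 := pow_le_pow_left₀ e0' h2 2
  have s4 : s ≤ 19 / 2000 := by linarith
  have t4 : s' ≤ 19 / 2000 := by linarith
  have e : (s' - s) * (2 - s - s') = (ε' - ε) * (ε + ε') := by linarith
  have d0 : 0 ≤ ε' - ε := by linarith
  have hh : 0 ≤ s' - s := by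
    by_contra hc
    have := mul_neg_of_neg_of_pos (not_le.mp hc) (show 0 < 2 - s - s' by linarith)
    linarith
  have b0 : s' - s ≤ 137 / 1000 * (ε' - ε) := by
    have p1 : (ε' - ε) * (ε + ε') ≤ (ε' - ε) * (27 / 100) :=
      mul_le_mul_of_nonneg_left (by linarith) d0
    have p2 : (s' - s) * (1981 / 1000) ≤ (s' - s) * (2 - s - s') :=
      mul_le_mul_of_nonneg_left (by linarith) hh
    linarith
  have b1 : (2 - s) ^ 10 * (1 - 503 / 100 * (s' - s)) ≤ (2 - s') ^ 10 := by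
    have p1 : (2 - s) * (1 - 503 / 1000 * (s' - s)) ≤ 2 - s' := by nlinarith
    have p2 := one_add_mul_le_pow (a := -(503 / 1000 * (s' - s))) (by linarith) 10
    calc _ ≤ (2 - s) ^ 10 * (1 - 503 / 1000 * (s' - s)) ^ 10 := by
          refine mul_le_mul_of_nonneg_left ?_ (by positivity)
          push_cast at p2
          rw [← sub_eq_add_neg] at p2
          linarith
      _ = ((2 - s) * (1 - 503 / 1000 * (s' - s))) ^ 10 := by rw [mul_pow]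
      _ ≤ _ := pow_le_pow_left₀ (mul_nonneg (by linarith) (by linarith)) p1 10
  have c1 : s ^ 5 ≤ s ^ 3 := pow_le_pow_of_le_one s0 (by linarith) (by norm_num)
  have c1' : s' ^ 5 ≤ s' ^ 3 := pow_le_pow_of_le_one t0 (by linarith) (by norm_num)
  have b2 : 1 + s' ^ 3 - s' ^ 5 ≤ (1 + s ^ 3 - s ^ 5) * (1 + 1 / 1000 * (s' - s)) := by
    have p1 := pow_diff s s' s0 (by linarith) 2
    norm_num at p1
    have p2 : s ^ 5 ≤ s' ^ 5 := pow_le_pow_left₀ s0 (by linarith) 5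
    have p3 : s' ^ 2 ≤ (19 / 2000) ^ 2 := pow_le_pow_left₀ t0 t4 2
    have p4 := mul_le_mul_of_nonneg_left p3 hh
    have p5 := mul_nonneg (sub_nonneg.mpr c1) hh
    linarith
  have b3 : 2 - s' ^ 8 ≤ 2 - s ^ 8 := by
    have : s ^ 8 ≤ s' ^ 8 := pow_le_pow_left₀ s0 (by linarith) 8
    linarith
  have b4 : 1 - 7 / 10 * ε' ≤ (1 - 7 / 10 * ε) * (1 - 7 / 10 * (ε' - ε)) := by
    nlinarith [mul_nonneg h0 d0]
  have b5 : (1 + 1 / 1000 * (s' - s)) * (1 - 7 / 10 * (ε' - ε)) ≤ 1 - 503 / 100 * (s' - s) := by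
    nlinarith [mul_nonneg hh d0]
  have c2 : s' ^ 8 ≤ 1 := pow_le_one₀ t0 (by linarith)
  have c3 : s ^ 8 ≤ 1 := pow_le_one₀ s0 (by linarith)
  have f1 := Sform s3
  have f2 := Sform t3
  have z1 : 0 < (2 - s) ^ 10 := pow_pos (by linarith) 10
  have z2 : 0 < (2 - s') ^ 10 := pow_pos (by linarith) 10
  have key : (1 + s' ^ 3 - s' ^ 5) * (2 - s' ^ 8) * (1 - 7 / 10 * ε') * (2 - s) ^ 10 ≤
      (1 + s ^ 3 - s ^ 5) * (2 - s ^ 8) * (1 - 7 / 10 * ε) * (2 - s') ^ 10 := by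
    have n1 : 0 ≤ 1 + s ^ 3 - s ^ 5 := by linarith
    have n2 : 0 ≤ 2 - s ^ 8 := by linarith
    have n3 : 0 ≤ 1 - 7 / 10 * ε := by linarith
    have n4 : 0 ≤ 2 - s' ^ 8 := by linarith
    have n5 : 0 ≤ 1 - 7 / 10 * ε' := by linarith
    calc _ ≤ ((1 + s ^ 3 - s ^ 5) * (1 + 1 / 1000 * (s' - s))) * (2 - s ^ 8) *
          ((1 - 7 / 10 * ε) * (1 - 7 / 10 * (ε' - ε))) * (2 - s) ^ 10 := by gcongr
      _ = (1 + s ^ 3 - s ^ 5) * (2 - s ^ 8) * (1 - 7 / 10 * ε) * ((2 - s) ^ 10 *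
          ((1 + 1 / 1000 * (s' - s)) * (1 - 7 / 10 * (ε' - ε)))) := by ring
      _ ≤ (1 + s ^ 3 - s ^ 5) * (2 - s ^ 8) * (1 - 7 / 10 * ε) * ((2 - s) ^ 10 *
          (1 - 503 / 100 * (s' - s))) := by gcongr
      _ ≤ _ := by gcongr
  refine le_of_mul_le_mul_right ?_ (mul_pos z1 z2)
  have k2 := mul_le_mul_of_nonneg_left key (show 0 ≤ ε ^ 20 * ε' ^ 20 by positivity)
  calc _ = (P s' s' * (2 - s') ^ 10) * ((1 - 7 / 10 * ε') * ε ^ 20 * (2 - s) ^ 10) := by ring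
    _ ≤ (P s s * (2 - s) ^ 10) * ((1 - 7 / 10 * ε) * ε' ^ 20 * (2 - s') ^ 10) := by
      rw [f1, f2]
      refine le_trans (le_of_eq ?_) (k2.trans (le_of_eq ?_))
      · generalize (2 - s) ^ 10 = Z
        generalize 1 + s' ^ 3 - s' ^ 5 = X
        generalize 2 - s' ^ 8 = Y
        ring
      · generalize (2 - s') ^ 10 = Z
        generalize 1 + s ^ 3 - s ^ 5 = X
        generalize 2 - s ^ 8 = Y
        ring
    _ = _ := by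
      generalize (2 - s) ^ 10 = Z
      generalize (2 - s') ^ 10 = Y
      ring

theorem Sup {ε s σ : ℝ} (h0 : 0 ≤ ε) (h2 : ε ≤ 1 / 5) (hs : Adm (ε ^ 2) s s)
    (h3 : 13 / 25 * ε ^ 2 ≤ σ) (h4 : σ ≤ 1 / 40) :
    P s s * (2 - σ) ^ 10 ≤ 20001 / 10000 * ε ^ 20 := by
  obtain ⟨_, s2, s3⟩ := sfacts h0 h2 hs
  have s0 := hs.1
  have n := P_nonneg hs
  have a1 : P s s * (2 - σ) ^ 10 ≤ P s s * (2 - s) ^ 10 :=
    mul_le_mul_of_nonneg_left (pow_le_pow_left₀ (by linarith) (by linarith) 10)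
      (mul_nonneg n.1 n.2)
  rw [Sform s3] at a1
  have a2 : s ^ 3 ≤ (1 / 40) ^ 3 := pow_le_pow_left₀ s0 (by linarith) 3
  have a3 : 0 ≤ s ^ 5 := by positivity
  have a4 : 0 ≤ s ^ 8 := by positivity
  have a5 : s ^ 8 ≤ 1 := pow_le_one₀ s0 (by linarith)
  have a6 : (1 + s ^ 3 - s ^ 5) * (2 - s ^ 8) ≤ (20001 / 20000) * 2 :=
    mul_le_mul (by linarith) (by linarith) (by linarith) (by norm_num)
  have a7 := mul_le_mul_of_nonneg_left a6 (show 0 ≤ ε ^ 20 by positivity)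
  linarith

theorem Slow {ε s : ℝ} (h0 : 0 ≤ ε) (h2 : ε ≤ 1 / 5) (hs : Adm (ε ^ 2) s s) :
    1999 / 1000 * ε ^ 20 ≤ P s s * 1024 := by
  obtain ⟨_, s2, s3⟩ := sfacts h0 h2 hs
  have s0 := hs.1
  have n := P_nonneg hs
  have s4 : s ≤ 1 / 40 := by nlinarith
  have a1 : P s s * (2 - s) ^ 10 ≤ P s s * 2 ^ 10 :=
    mul_le_mul_of_nonneg_left (pow_le_pow_left₀ (by linarith) (by linarith) 10)
      (mul_nonneg n.1 n.2)
  rw [Sform s3] at a1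
  have c1 : s ^ 5 ≤ s ^ 3 := pow_le_pow_of_le_one s0 (by linarith) (by norm_num)
  have a5 : s ^ 8 ≤ (1 / 40) ^ 8 := pow_le_pow_left₀ s0 s4 8
  have a6 : 1 * (1999 / 1000) ≤ (1 + s ^ 3 - s ^ 5) * (2 - s ^ 8) :=
    mul_le_mul (by linarith) (by linarith) (by norm_num) (by linarith)
  have a7 := mul_le_mul_of_nonneg_left a6 (show 0 ≤ ε ^ 20 by positivity)
  linarith

end Pool.Agent.H.MP_8790d8_co
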