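import Pool.Agent.H.MP_8790d8_co.B

set_option autoImplicit false

namespace Pool.Agent.H.MP_8790d8_co

theorem crude {β r M : ℝ} (h : Adm β r M) :
    P r M ≤ (M ^ 7 + r ^ 2 + r ^ 5) * (M ^ 16 + 2 * r ^ 8) := by
  have n := P_nonneg h
  have h1 := h.1
  have M0 : 0 ≤ M := h.1.trans h.2.1
  refine mul_le_mul ?_ ?_ n.2 (by positivity)
  · have a : 0 ≤ r ^ 2 * M ^ 5 := by positivity
    have b : 0 ≤ r ^ 5 * M ^ 2 := by positivity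
    unfold P1; linarith
  · have a : 0 ≤ r ^ 8 * M ^ 8 := by positivity
    unfold P2; linarith

theorem crude' {ε θ r U : ℝ} (h0 : 0 < ε) (h : Adm (ε ^ 2) r (θ * ε)) (t2 : θ ≤ 1)
    (hU : 1 ≤ U * (1 - ε)) (h1 : ε < 1) :
    ∃ ρ : ℝ, 0 ≤ ρ ∧ ρ ≤ U * ((1 - θ ^ 2) / 2) ∧
      P r (θ * ε) ≤ ε ^ 20 * ((θ ^ 7 * ε ^ 3 + ρ ^ 2 + ρ ^ 5 * ε ^ 6) * (θ ^ 16 + 2 * ρ ^ 8)) := by
  have e2 : 0 < ε ^ 2 := by positivity
  obtain ⟨ρ, rfl⟩ : ∃ ρ, r = ε ^ 2 * ρ := ⟨r / ε ^ 2, by field_simp⟩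
  have ρ0 : 0 ≤ ρ := nonneg_of_mul_nonneg_right h.1 e2 |> fun h => h
  refine ⟨ρ, ρ0, ?_, (crude h).trans (le_of_eq (by ring))⟩
  have e : ρ * (1 - θ * ε) = (1 - θ ^ 2) / 2 := by
    refine mul_left_cancel₀ e2.ne' ?_
    linarith [h.2.2.2]
  have U0 : 0 ≤ U := by
    by_contra hc
    have := mul_neg_of_neg_of_pos (not_le.mp hc) (show 0 < 1 - ε by linarith)
    linarith
  have a : ρ * (U * (1 - ε)) ≤ ρ * (U * (1 - θ * ε)) := by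
    have := mul_le_mul_of_nonneg_right t2 h0.le
    gcongr
    linarith
  have b := mul_le_mul_of_nonneg_left hU ρ0
  rw [← e]
  linarith

theorem UB {ε θ r U : ℝ} (h0 : 0 < ε) (h2 : ε ≤ 1 / 5) (h : Adm (ε ^ 2) r (θ * ε))
    (t1 : 7 / 10 ≤ θ) (t2 : θ ≤ 1) (hU : 1 ≤ U * (1 - ε)) (hU2 : U ≤ 5 / 4) :
    P r (θ * ε) ≤ ε ^ 20 * (ε ^ 3 * θ ^ 23 + 168 / 100000 * U ^ 2 + 3 / 100000) := by
  obtain ⟨ρ, ρ0, ρ1, hP⟩ := crude' h0 h t2 hU (by linarith)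
  refine hP.trans (mul_le_mul_of_nonneg_left ?_ (by positivity))
  have t0 : 0 ≤ θ := by linarith
  have z1 : θ ^ 2 ≤ 1 := pow_le_one₀ t0 t2
  have z2 : (7 / 10) ^ 2 ≤ θ ^ 2 := pow_le_pow_left₀ (by norm_num) t1 2
  have U0 : 0 ≤ U := by nlinarith
  have ρ2 : ρ ≤ 319 / 1000 := by
    have : U * ((1 - θ ^ 2) / 2) ≤ 5 / 4 * (51 / 200) :=
      mul_le_mul hU2 (by linarith) (by linarith) (by norm_num)
    linarith
  have a1 : (1 - θ ^ 2) * θ ^ 8 ≤ 8192 / 100000 := by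
    have : 0 ≤ (θ ^ 2 - 4 / 5) ^ 2 * ((θ ^ 2) ^ 3 + 3 / 5 * (θ ^ 2) ^ 2 + 8 / 25 * θ ^ 2 +
      16 / 125) := by positivity
    linarith
  have a2 : ρ * θ ^ 8 ≤ U * (4096 / 100000) := by
    have p1 := mul_le_mul_of_nonneg_right ρ1 (show 0 ≤ θ ^ 8 by positivity)
    have p2 := mul_le_mul_of_nonneg_left a1 U0
    linarith
  have a3 : (ρ * θ ^ 8) ^ 2 ≤ (U * (4096 / 100000)) ^ 2 := pow_le_pow_left₀ (by positivity) a2 2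
  have a4 : (θ ^ 7 * ε ^ 3 + ρ ^ 2 + ρ ^ 5 * ε ^ 6) * (2 * ρ ^ 8) ≤
      (1 ^ 7 * (1 / 5) ^ 3 + (319 / 1000) ^ 2 + (319 / 1000) ^ 5 * (1 / 5) ^ 6) *
        (2 * (319 / 1000) ^ 8) := by gcongr
  have a5 : ρ ^ 5 * ε ^ 6 * θ ^ 16 ≤ (319 / 1000) ^ 5 * (1 / 5) ^ 6 * 1 ^ 16 := by gcongr
  have a6 : 0 ≤ U ^ 2 := sq_nonneg U
  have e : (θ ^ 7 * ε ^ 3 + ρ ^ 2 + ρ ^ 5 * ε ^ 6) * (θ ^ 16 + 2 * ρ ^ 8) =
      ε ^ 3 * θ ^ 23 + (ρ * θ ^ 8) ^ 2 + ρ ^ 5 * ε ^ 6 * θ ^ 16 +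
        (θ ^ 7 * ε ^ 3 + ρ ^ 2 + ρ ^ 5 * ε ^ 6) * (2 * ρ ^ 8) := by ring
  rw [e]
  norm_num at a4 a5
  nlinarith

theorem LK {ε θ r : ℝ} (h0 : 0 < ε) (h2 : ε ≤ 1 / 5) (h : Adm (ε ^ 2) r (θ * ε))
    (t1 : 1 - 5 / 2 * ε ^ 3 ≤ θ) (t2 : θ ≤ 1) : P r (θ * ε) ≤ ε ^ 23 := by
  obtain ⟨ρ, ρ0, ρ1, hP⟩ := crude' (U := 5 / 4) h0 h t2 (by linarith) (by linarith)
  have e3 : ε ^ 3 ≤ (1 / 5) ^ 3 := pow_le_pow_left₀ h0.le h2 3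
  have t3 : 49 / 50 ≤ θ := by linarith
  have t0 : 0 ≤ θ := by linarith
  have τ0 : 0 ≤ 1 - θ := by linarith
  have ρ2 : ρ ≤ 5 / 4 * (1 - θ) := by nlinarith [sq_nonneg (1 - θ)]
  have ρ3 : ρ ≤ 1 / 40 := by linarith
  have a1 : θ ^ 7 ≤ 1 - 4 * (1 - θ) := by
    have p : (1 - θ) * (1 + 49 / 50 + (49 / 50) ^ 2 + (49 / 50) ^ 3 + (49 / 50) ^ 4 +
        (49 / 50) ^ 5 + (49 / 50) ^ 6) ≤
        (1 - θ) * (1 + θ + θ ^ 2 + θ ^ 3 + θ ^ 4 + θ ^ 5 + θ ^ 6) := by gcongr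
    linarith
  have a2 : ρ ^ 2 ≤ (5 / 4 * (1 - θ)) ^ 2 := pow_le_pow_left₀ ρ0 ρ2 2
  have a3 : ρ ^ 2 * (ρ ^ 3 * ε ^ 6) ≤ ρ ^ 2 * ((1 / 40) ^ 3 * (1 / 5) ^ 6) := by gcongr
  have a4 : (1 - θ) * (1 - θ) ≤ (1 - θ) * (5 / 2 * ε ^ 3) :=
    mul_le_mul_of_nonneg_left (by linarith) τ0
  have a5 := mul_le_mul_of_nonneg_right a1 (show 0 ≤ ε ^ 3 by positivity)
  have a6 : 0 ≤ (1 - θ) * ε ^ 3 := by positivity
  have b1 : θ ^ 7 * ε ^ 3 + ρ ^ 2 + ρ ^ 5 * ε ^ 6 ≤ ε ^ 3 := by linarith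
  have b2 : θ ^ 16 + 2 * ρ ^ 8 ≤ 1 := by
    have p1 : θ ^ 16 ≤ θ ^ 1 := pow_le_pow_of_le_one t0 t2 (by norm_num)
    have p2 : ρ * ρ ^ 7 ≤ ρ * (1 / 40) ^ 7 := by gcongr
    linarith
  have b3 := mul_le_mul b1 b2 (by positivity) (by positivity)
  have b4 := mul_le_mul_of_nonneg_left b3 (show 0 ≤ ε ^ 20 by positivity)
  linarith

theorem KS {ε s : ℝ} (h0 : 27 / 200 ≤ ε) (h2 : ε ≤ 1 / 5) (hs : Adm (ε ^ 2) s s) :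
    P s s < ε ^ 23 := by
  have e0 : 0 < ε := by linarith
  have e2 : ε ^ 2 ≤ (1 / 5) ^ 2 := pow_le_pow_left₀ e0.le h2 2
  have a := Sup (σ := 208 / 10000) e0.le h2 hs (by linarith) (by norm_num)
  have e3 : (27 / 200) ^ 3 ≤ ε ^ 3 := pow_le_pow_left₀ (by norm_num) h0 3
  have e4 : 0 < ε ^ 20 := by positivity
  have e5 := mul_le_mul_of_nonneg_left e3 e4.le
  norm_num at a e5
  linarith

theorem theta {ε r M s : ℝ} (h0 : 0 < ε) (h : Adm (ε ^ 2) r M) (hs : Adm (ε ^ 2) s s) :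
    ∃ θ, M = θ * ε ∧ θ ≤ 1 :=
  ⟨M / ε, by field_simp, (div_le_one h0).mpr (rfacts h0.le h hs).1⟩

theorem Sstart {r M s : ℝ} (h : Adm ((1 / 100) ^ 2) r M) (hs : Adm ((1 / 100) ^ 2) s s) :
    P r M ≤ P s s := by
  obtain ⟨θ, rfl, t2⟩ := theta (by norm_num) h hs
  rcases le_total θ (7 / 10) with t1 | t1
  · exact small (by norm_num) (by norm_num) h hs (by linarith)
  · have a := UB (U := 102 / 100) (by norm_num) (by norm_num) h t1 t2 (by norm_num) (by norm_num)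
    have b := Slow (by norm_num) (by norm_num) hs
    have c : θ ^ 23 ≤ 1 := pow_le_one₀ (by linarith) t2
    have d : (0 : ℝ) < (1 / 100) ^ 20 := by positivity
    generalize ((1 : ℝ) / 100) ^ 20 = Z at *
    have e := mul_le_mul_of_nonneg_left c d.le
    linarith

theorem Kend {r M s : ℝ} (h : Adm ((1 / 5) ^ 2) r M) (hs : Adm ((1 / 5) ^ 2) s s) :
    P r M ≤ (1 / 5) ^ 23 := by
  obtain ⟨θ, rfl, t2⟩ := theta (by norm_num) h hs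
  rcases le_total θ (7 / 10) with t1 | t1
  · exact (small (by norm_num) (by norm_num) h hs (by linarith)).trans
      (KS (by norm_num) (by norm_num) hs).le
  · rcases le_total θ (49 / 50) with t3 | t3
    · have a := UB (U := 5 / 4) (by norm_num) (by norm_num) h t1 t2 (by norm_num) (by norm_num)
      have c : θ ^ 23 ≤ (49 / 50) ^ 23 := pow_le_pow_left₀ (by linarith) t3 23
      have c' : θ ^ 23 ≤ 63 / 100 := c.trans (by norm_num)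
      linarith
    · exact LK (by norm_num) (by norm_num) h (by linarith) t2

theorem Wit {s : ℝ} (hs : Adm ((3 / 25) ^ 2) s s) :
    ∃ r M, Adm ((3 / 25) ^ 2) r M ∧ P s s < P r M ∧ (3 / 25) ^ 23 < P r M := by
  refine ⟨171 / 111500, 27 / 250, by unfold Adm; norm_num, ?_, by unfold P P1 P2; norm_num⟩
  have a := Sup (σ := 75 / 10000) (by norm_num) (by norm_num) hs (by norm_num) (by norm_num)
  have b : 20001 / 10000 * (3 / 25 : ℝ) ^ 20 <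
      P (171 / 111500) (27 / 250) * (2 - 75 / 10000) ^ 10 := by
    unfold P P1 P2; norm_num
  exact lt_of_mul_lt_mul_right (a.trans_lt b) (by norm_num)

theorem Sdown {ε ε' s s' : ℝ} (h0 : 0 < ε) (h1 : ε ≤ ε') (h2 : ε' ≤ 1 / 5)
    (hs : Adm (ε ^ 2) s s) (hs' : Adm (ε' ^ 2) s' s')
    (H : ∀ r M, Adm (ε' ^ 2) r M → P r M ≤ P s' s') (r M : ℝ) (h : Adm (ε ^ 2) r M) :
    P r M ≤ P s s := by
  have e0' : 0 < ε' := by linarith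
  have h3 : ε' ≤ 27 / 200 := by
    by_contra hc
    have a := KS (not_le.mp hc).le h2 hs'
    have b := H 0 ε' ⟨le_rfl, e0'.le, by linarith, by ring⟩
    have c : P 0 ε' = ε' ^ 23 := by unfold P P1 P2; ring
    linarith
  obtain ⟨θ, rfl, t2⟩ := theta h0 h hs
  rcases le_total θ (7 / 10) with t1 | t1
  · exact small h0.le (by linarith) h hs (mul_le_mul_of_nonneg_right t1 h0.le)
  have t0 : 0 ≤ θ := by linarith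
  have x1 : θ * ε ≤ ε := mul_le_of_le_one_left h0.le t2
  have x2 : θ * ε' ≤ ε' := mul_le_of_le_one_left e0'.le t2
  have z1 : θ ^ 2 ≤ 1 := pow_le_one₀ t0 t2
  have z2 : (7 / 10) ^ 2 ≤ θ ^ 2 := pow_le_pow_left₀ (by norm_num) t1 2
  have u1 : (1 - θ * ε)⁻¹ * (1 - θ * ε) = 1 := inv_mul_cancel₀ (by linarith)
  have u2 : (1 - θ * ε')⁻¹ * (1 - θ * ε') = 1 := inv_mul_cancel₀ (by linarith)
  have u3 : 0 ≤ (1 - θ * ε')⁻¹ := inv_nonneg.mpr (by linarith)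
  have u4 : (1 - θ * ε')⁻¹ ≤ 5 / 4 := by
    rw [inv_le_comm₀ (by linarith) (by norm_num)]; linarith
  have A0 : 0 ≤ (1 - θ ^ 2) / 2 := by linarith
  have a := H (ε' ^ 2 * ((1 - θ ^ 2) / 2) * (1 - θ * ε')⁻¹) (θ * ε') ⟨by positivity, by
    calc _ = ε' * ((1 - θ ^ 2) / 2) * (1 - θ * ε')⁻¹ * ε' := by ring
      _ ≤ 1 / 5 * (1 / 2) * (5 / 4) * ε' := by gcongr; linarith
      _ ≤ _ := mul_le_mul_of_nonneg_right (by linarith) e0'.le, by linarith, by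
    linear_combination (ε' ^ 2 * (1 - θ ^ 2)) * u2⟩
  rw [normal _ _ _ _ u2] at a
  have b := Gmono A0 h0.le h1 h2 t1 t2 u1 u2
  have c := Smono h0.le h1 h3 hs hs'
  rw [adm_form h (by linarith), normal _ _ _ _ u1]
  generalize G1 ((1 - θ ^ 2) / 2) θ ε (1 - θ * ε)⁻¹ * G2 ((1 - θ ^ 2) / 2) θ ε (1 - θ * ε)⁻¹ = X
    at *
  generalize G1 ((1 - θ ^ 2) / 2) θ ε' (1 - θ * ε')⁻¹ *
    G2 ((1 - θ ^ 2) / 2) θ ε' (1 - θ * ε')⁻¹ = Y at *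
  have p1 : 0 < (1 - 7 / 10 * ε) * ε' ^ 20 := mul_pos (by linarith) (by positivity)
  refine le_of_mul_le_mul_right ?_ p1
  have p2 := mul_le_mul_of_nonneg_left b (show 0 ≤ ε ^ 20 * ε' ^ 20 by positivity)
  have p3 := mul_le_mul_of_nonneg_right a
    (show 0 ≤ (1 - 7 / 10 * ε') * ε ^ 20 from mul_nonneg (by linarith) (by positivity))
  linarith

theorem skeleton (f : ℝ → ℝ → ℝ) (hf : Continuous fun z : ℝ × ℝ => f z.1 z.2)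
    (b0 b1 b2 q0 q1 : ℝ) (o0 : 0 < b0) (o1 : b0 ≤ b1) (o2 : b1 ≤ b2) (o3 : b2 < 1)
    (p0 : 0 < q0) (p1 : q1 < 1) (S K : ℝ → Prop)
    (hS : ∀ β, S β ↔ ∀ q ∈ Set.Icc (0 : ℝ) 1, f β q ≤ f β 0)
    (hK : ∀ β, K β ↔ ∀ q ∈ Set.Icc (0 : ℝ) 1, f β q ≤ f β 1)
    (h1 : S b0) (h2 : K b2) (h3 : ¬ S b1) (h3' : ¬ K b1)
    (h4 : ∀ β β', 0 ≤ β → β ≤ β' → b0 ≤ β' → β' ≤ b2 → S β' → S β)
    (h5 : ∀ β β', b0 ≤ β → β ≤ β' → β' ≤ 1 → K β → K β')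
    (h6 : ∀ β ∈ Set.Icc b0 b2, ∀ q ∈ Set.Icc 0 q0, f β q ≤ f β 0)
    (h7 : ∀ β ∈ Set.Icc b0 b2, ∀ q ∈ Set.Icc q1 1, f β q ≤ f β 1) :
    ∃ γ δ : ℝ, 0 < γ ∧ γ < δ ∧ δ < 1 ∧ (∀ β ∈ Set.Icc 0 γ, S β) ∧
      (∀ β ∈ Set.Icc γ δ, ∃ t ∈ Set.Ioo (0 : ℝ) 1, ∀ q ∈ Set.Icc (0 : ℝ) 1, f β q ≤ f β t) ∧
      (∀ β ∈ Set.Icc δ 1, K β) ∧ ∀ β ∈ Set.Ioo γ δ, ¬ S β ∧ ¬ K β := by
  have cl : ∀ t : ℝ, IsClosed {β | ∀ q ∈ Set.Icc (0 : ℝ) 1, f β q ≤ f β t} := fun t => by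
    simp only [Set.setOf_forall]
    refine isClosed_iInter fun q => isClosed_iInter fun _ => isClosed_le ?_ ?_
    · exact hf.comp (f := fun β : ℝ => (β, q)) (by fun_prop)
    · exact hf.comp (f := fun β : ℝ => (β, t)) (by fun_prop)
  have c1 : IsCompact (Set.Icc b0 b2 ∩ {β | S β}) :=
    isCompact_Icc.inter_right (by simp only [hS]; exact cl 0)
  have c2 : IsCompact (Set.Icc b0 b2 ∩ {β | K β}) :=
    isCompact_Icc.inter_right (by simp only [hK]; exact cl 1)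
  obtain ⟨γ, ⟨g1, g2⟩, g3⟩ := c1.exists_isGreatest ⟨b0, ⟨le_rfl, o1.trans o2⟩, h1⟩
  obtain ⟨δ, ⟨d1, d2⟩, d3⟩ := c2.exists_isLeast ⟨b2, ⟨o1.trans o2, le_rfl⟩, h2⟩
  have g4 : γ < b1 := not_le.mp fun h => h3 (h4 b1 γ (by linarith) h g1.1 g1.2 g2)
  have d4 : b1 < δ := not_le.mp fun h => h3' (h5 δ b1 d1.1 h (by linarith) d2)
  have k : ∀ β ∈ Set.Ioo γ δ, ¬ S β ∧ ¬ K β := fun β hβ =>
    have hb : β ∈ Set.Icc b0 b2 := ⟨g1.1.trans hβ.1.le, hβ.2.le.trans d1.2⟩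
    ⟨fun h => absurd (g3 ⟨hb, h⟩) (not_le.mpr hβ.1), fun h => absurd (d3 ⟨hb, h⟩) (not_le.mpr hβ.2)⟩
  refine ⟨γ, δ, by linarith [g1.1], by linarith, by linarith [d1.2],
    fun β hβ => h4 β γ hβ.1 hβ.2 g1.1 g1.2 g2, ?_,
    fun β hβ => h5 δ β d1.1 hβ.1 hβ.2 d2, k⟩
  have c3 : IsClosed {β : ℝ | ∃ t : Set.Icc q0 q1, ∀ q ∈ Set.Icc (0 : ℝ) 1, f β q ≤ f β t} := by
    have a1 : IsClosed {p : ℝ × Set.Icc q0 q1 | ∀ q ∈ Set.Icc (0 : ℝ) 1, f p.1 q ≤ f p.1 p.2} := by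
      simp only [Set.setOf_forall]
      refine isClosed_iInter fun q => isClosed_iInter fun _ => isClosed_le ?_ ?_
      · exact hf.comp (f := fun p : ℝ × Set.Icc q0 q1 => (p.1, q)) (by fun_prop)
      · exact hf.comp (f := fun p : ℝ × Set.Icc q0 q1 => (p.1, (p.2 : ℝ))) (by fun_prop)
    have a2 := isClosedMap_fst_of_compactSpace _ a1
    convert a2 using 1
    ext z
    simp
  have c4 : Set.Ioo γ δ ⊆
      {β : ℝ | ∃ t : Set.Icc q0 q1, ∀ q ∈ Set.Icc (0 : ℝ) 1, f β q ≤ f β t} := fun β hβ => by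
    have hb : β ∈ Set.Icc b0 b2 := ⟨g1.1.trans hβ.1.le, hβ.2.le.trans d1.2⟩
    obtain ⟨t, ht, hm⟩ := isCompact_Icc.exists_isMaxOn (s := Set.Icc (0 : ℝ) 1) (f := f β)
      ⟨0, le_rfl, zero_le_one⟩ (hf.comp (f := fun q : ℝ => (β, q)) (by fun_prop)).continuousOn
    refine ⟨⟨t, ?_, ?_⟩, fun q hq => hm hq⟩
    · by_contra hc
      exact (k β hβ).1 ((hS β).mpr fun q hq =>
        le_trans (hm hq) (h6 β hb t ⟨ht.1, (not_le.mp hc).le⟩))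
    · by_contra hc
      exact (k β hβ).2 ((hK β).mpr fun q hq =>
        le_trans (hm hq) (h7 β hb t ⟨(not_le.mp hc).le, ht.2⟩))
  intro β hβ
  rw [← closure_Ioo (by linarith : γ < δ).ne] at hβ
  obtain ⟨t, ht⟩ := closure_minimal c4 c3 hβ
  exact ⟨t, ⟨p0.trans_le t.2.1, t.2.2.trans_lt p1⟩, ht⟩

end Pool.Agent.H.MP_8790d8_co
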