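import Pool.Agent.H.MP_8790d8_co.C
import Pool.Agent.H.MP_35cd17_co.F

set_option autoImplicit false
set_option linter.unusedSectionVars false
open Finset Pool.Agent.H.MP_35cd17_co

namespace Pool.Agent.H.MP_8790d8_co

open Classical

variable {V W : Type} [Fintype V] [DecidableEq V] [Fintype W] [DecidableEq W]
  {X : Type} [Fintype X] [Nonempty X]

theorem tt_sum (G : SimpleGraph V) (H : SimpleGraph W) (A : X → X → Prop) (w : X → ℝ) :
    tt (G.sum H) A univ w = tt G A univ w * tt H A univ w := by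
  rw [tt_univ, tt_univ, tt_univ, Finset.sum_mul_sum, ← Fintype.sum_prod_type',
    ← (Equiv.sumArrowEquivProdArrow V W X).symm.sum_comp]
  refine Finset.sum_congr rfl fun p _ => ?_
  obtain ⟨f, g⟩ := p
  rw [Fintype.prod_sum_type]
  have e : ind (G.sum H) A univ ((Equiv.sumArrowEquivProdArrow V W X).symm (f, g)) =
      ind G A univ f * ind H A univ g := by
    unfold ind
    rw [ite_zero_mul_ite_zero, one_mul]
    congr 1
    apply propext
    constructor
    · intro h
      exact ⟨fun a _ b _ hab => h (.inl a) (mem_univ _) (.inl b) (mem_univ _) hab,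
        fun a _ b _ hab => h (.inr a) (mem_univ _) (.inr b) (mem_univ _) hab⟩
    · rintro ⟨h1, h2⟩ (a | a) _ (b | b) _ hab
      · exact h1 a (mem_univ _) b (mem_univ _) hab
      · exact absurd hab (by simp)
      · exact absurd hab (by simp)
      · exact h2 a (mem_univ _) b (mem_univ _) hab
  rw [e]
  simp only [Equiv.sumArrowEquivProdArrow_symm_apply_inl,
    Equiv.sumArrowEquivProdArrow_symm_apply_inr]
  ring

noncomputable def JJ (w : Fin 4 → ℝ) (k : ℕ) (f : V → Fin 4) : ℝ :=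
  ∏ i, if (f i).val ≤ k then w (f i) else 0

theorem JJ_sum (w : Fin 4 → ℝ) (k : ℕ) : ∑ f : V → Fin 4, JJ w k f =
    (∑ x : Fin 4, if x.val ≤ k then w x else 0) ^ Fintype.card V := by
  unfold JJ
  rw [← Finset.card_univ, ← Finset.prod_const, Finset.prod_univ_sum, Fintype.piFinset_univ]

theorem JJ_max (w : Fin 4 → ℝ) (k : ℕ) (f : V → Fin 4) (i0 : V) (h : ∀ i, f i ≤ f i0) :
    JJ w k f = if (f i0).val ≤ k then ∏ i, w (f i) else 0 := by
  unfold JJ
  split_ifs with h1
  · exact Finset.prod_congr rfl fun i _ => if_pos (le_trans (Fin.le_def.mp (h i)) h1)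
  · exact Finset.prod_eq_zero (mem_univ i0) (if_neg h1)

theorem tt_bip [Nonempty V] [Nonempty W] (u M v N : ℝ) :
    FF (completeBipartiteGraph V W) univ u M v N =
      (M + v) ^ Fintype.card V * u ^ Fintype.card W +
        M ^ Fintype.card V * (M ^ Fintype.card W - u ^ Fintype.card W) +
        u ^ Fintype.card V * ((M + v) ^ Fintype.card W - M ^ Fintype.card W) := by
  unfold FF
  set w : Fin 4 → ℝ := ![u, M - u, v, N - v] with hw
  have s0 : (∑ x : Fin 4, if x.val ≤ 0 then w x else 0) = u := by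
    simp [hw, Fin.sum_univ_four]
  have s1 : (∑ x : Fin 4, if x.val ≤ 1 then w x else 0) = M := by
    simp [hw, Fin.sum_univ_four]
  have s2 : (∑ x : Fin 4, if x.val ≤ 2 then w x else 0) = M + v := by
    simp [hw, Fin.sum_univ_four]
  have t0 := JJ_sum (V := V) w 0
  have t1 := JJ_sum (V := V) w 1
  have t2 := JJ_sum (V := V) w 2
  have r0 := JJ_sum (V := W) w 0
  have r1 := JJ_sum (V := W) w 1
  have r2 := JJ_sum (V := W) w 2
  rw [s0] at t0 r0
  rw [s1] at t1 r1
  rw [s2] at t2 r2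
  rw [← t0, ← t1, ← t2, ← r0, ← r1, ← r2, ← Finset.sum_sub_distrib, ← Finset.sum_sub_distrib,
    Finset.sum_mul_sum, Finset.sum_mul_sum, Finset.sum_mul_sum, tt_univ,
    ← (Equiv.sumArrowEquivProdArrow V W (Fin 4)).symm.sum_comp, Fintype.sum_prod_type,
    ← Finset.sum_add_distrib, ← Finset.sum_add_distrib]
  refine Finset.sum_congr rfl fun f _ => ?_
  rw [← Finset.sum_add_distrib, ← Finset.sum_add_distrib]
  refine Finset.sum_congr rfl fun g _ => ?_
  obtain ⟨i0, _, hi⟩ := Finset.exists_max_image univ f univ_nonempty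
  obtain ⟨j0, _, hj⟩ := Finset.exists_max_image univ g univ_nonempty
  have e : ind (completeBipartiteGraph V W) A4 univ
      ((Equiv.sumArrowEquivProdArrow V W (Fin 4)).symm (f, g)) =
      if (f i0).val + (g j0).val ≤ 2 then 1 else 0 := by
    unfold ind
    congr 1
    apply propext
    constructor
    · intro h
      exact h (.inl i0) (mem_univ _) (.inr j0) (mem_univ _) (by simp)
    · rintro h (a | a) _ (b | b) _ hab
      · exact absurd hab (by simp)
      · have := Fin.le_def.mp (hi a (mem_univ _))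
        have := Fin.le_def.mp (hj b (mem_univ _))
        show (f a).val + (g b).val ≤ 2
        omega
      · have := Fin.le_def.mp (hi b (mem_univ _))
        have := Fin.le_def.mp (hj a (mem_univ _))
        show (g a).val + (f b).val ≤ 2
        omega
      · exact absurd hab (by simp)
  rw [e, Fintype.prod_sum_type]
  simp only [Equiv.sumArrowEquivProdArrow_symm_apply_inl,
    Equiv.sumArrowEquivProdArrow_symm_apply_inr, JJ_max w _ f i0 fun i => hi i (mem_univ _),
    JJ_max w _ g j0 fun i => hj i (mem_univ _)]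
  split_ifs <;> first | omega | ring

abbrev V0 : Type := (Fin 2 ⊕ Fin 5) ⊕ (Fin 8 ⊕ Fin 8)

abbrev G0 : SimpleGraph V0 :=
  (completeBipartiteGraph (Fin 2) (Fin 5)).sum (completeBipartiteGraph (Fin 8) (Fin 8))

theorem FF0 (u M v N l : ℝ) (h : M + v = 1) :
    FF G0 univ (l * u) (l * M) (l * v) N = l ^ 23 * P u M := by
  have e := tt_sum (completeBipartiteGraph (Fin 2) (Fin 5)) (completeBipartiteGraph (Fin 8) (Fin 8))
    A4 ![l * u, l * M - l * u, l * v, N - l * v]
  have e1 := tt_bip (V := Fin 2) (W := Fin 5) (l * u) (l * M) (l * v) N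
  have e2 := tt_bip (V := Fin 8) (W := Fin 8) (l * u) (l * M) (l * v) N
  unfold FF at *
  rw [e, e1, e2, ← mul_add, h]
  simp only [Fintype.card_fin]
  unfold P P1 P2
  ring

theorem tt0 (u M : ℝ) : tt G0 A3 univ ![u, M - u, 1 - M] = P u M := by
  rw [← FF3]
  have := FF0 u M (1 - M) (1 - M) 1 (by ring)
  simpa using this

theorem scale {β r M l : ℝ} (h : Adm β r M) (l0 : 0 ≤ l) (l1 : l ≤ 1) :
    ∃ r' M', Adm (l ^ 2 * β) r' M' ∧ l ^ 23 * P r M ≤ P r' M' := by
  obtain ⟨h1, h2, h3, h4⟩ := h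
  obtain ⟨u', M', N', a1, a2, a3, a4, a5, a6⟩ := four G0
    (fun U => if U = univ then 1 else 0) (fun U => by split_ifs <;> norm_num)
    (l * r) (l * M) (l * (1 - M)) (1 - l * M) (mul_nonneg l0 h1)
    (mul_le_mul_of_nonneg_left h2 l0) (mul_nonneg l0 (by linarith)) (by linarith)
  have b : N' = 1 - M' := by linarith
  refine ⟨u', M', ⟨a1, a2, by linarith, by rw [← b, a5, ← h4]; ring⟩, ?_⟩
  have c : FF G0 univ (l * r) (l * M) (l * (1 - M)) (1 - l * M) ≤ FF G0 univ u' M' N' N' := by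
    simpa [Phi] using a6
  rwa [FF0 _ _ _ _ _ (by ring), FF3, b, tt0] at c

theorem adm_le {β r M : ℝ} (h : Adm β r M) : 0 ≤ β ∧ β ≤ 1 := by
  obtain ⟨h1, h2, h3, h4⟩ := h
  have p1 := mul_nonneg h1 (sub_nonneg.mpr h3)
  have p2 := mul_nonneg (sub_nonneg.mpr h2) (sub_nonneg.mpr h3)
  constructor <;> nlinarith [sq_nonneg M, sq_nonneg (1 - M)]

theorem mono {β β' r M : ℝ} (h : Adm β r M) (b1 : β ≤ β') (b2 : β' ≤ 1) :
    ∃ M', Adm β' r M' ∧ P r M ≤ P r M' := by
  have n := P_nonneg h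
  obtain ⟨h1, h2, h3, h4⟩ := h
  have a1 : (M - r) ^ 2 ≤ β' - 2 * r + r ^ 2 := by linarith
  have a2 : 0 ≤ β' - 2 * r + r ^ 2 := (sq_nonneg _).trans a1
  have a3 : M - r ≤ √(β' - 2 * r + r ^ 2) := Real.le_sqrt_of_sq_le a1
  have a4 : √(β' - 2 * r + r ^ 2) ≤ 1 - r :=
    Real.sqrt_le_iff.mpr ⟨by linarith, by linarith⟩
  have a5 := Real.sq_sqrt a2
  set y := √(β' - 2 * r + r ^ 2)
  have hA : Adm β' r (r + y) := ⟨h1, by linarith, by linarith, by linarith⟩
  refine ⟨r + y, hA, ?_⟩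
  have M0 : 0 ≤ M := h1.trans h2
  have p : ∀ k : ℕ, 0 ≤ M ^ k - r ^ k ∧ M ^ k - r ^ k ≤ (r + y) ^ k - r ^ k := fun k =>
    ⟨sub_nonneg.mpr (pow_le_pow_left₀ h1 h2 k),
      sub_le_sub_right (pow_le_pow_left₀ M0 (by linarith) k) _⟩
  refine mul_le_mul ?_ ?_ n.2 (P_nonneg hA).1
  · have := mul_le_mul (p 2).2 (p 5).2 (p 5).1 ((p 2).1.trans (p 2).2)
    unfold P1
    generalize r + y = Z at *
    linarith
  · have := mul_le_mul (p 8).2 (p 8).2 (p 8).1 ((p 8).1.trans (p 8).2)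
    unfold P2
    generalize r + y = Z at *
    linarith

theorem Kup {β β' : ℝ} (b0 : 0 < β) (b1 : β ≤ β')
    (H : ∀ r M, Adm β r M → P r M ≤ √β ^ 23) (r M : ℝ) (h : Adm β' r M) : P r M ≤ √β' ^ 23 := by
  have s0 : 0 < √β := Real.sqrt_pos.mpr b0
  have s1 : √β ≤ √β' := Real.sqrt_le_sqrt b1
  have s2 : 0 < √β' := s0.trans_le s1
  obtain ⟨r', M', a1, a2⟩ := scale h (div_pos s0 s2).le ((div_le_one s2).mpr s1)
  rw [div_pow, Real.sq_sqrt b0.le, Real.sq_sqrt (by linarith),
    div_mul_cancel₀ _ (by linarith : 0 < β').ne'] at a1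
  have a3 := a2.trans (H _ _ a1)
  rw [div_pow, div_mul_eq_mul_div, div_le_iff₀ (by positivity)] at a3
  exact le_of_mul_le_mul_left a3 (by positivity)

theorem upper0 {β m : ℝ} (b0 : 0 < β) (b1 : β ≤ 1) (H : ∀ r M, Adm β r M → P r M ≤ m)
    (n : ℕ) [Nonempty (Fin n)] (A : Fin n → Fin n → Prop) (hs : ∀ x y, A x y → A y x)
    (hA : ee A (fun _ => mu (Fin n)) ≤ β) : tt G0 A univ (fun _ => mu (Fin n)) ≤ m := by
  have k : ∀ ε : ℝ, 0 < ε → √(β / (β + 4 * ε)) ^ 23 * (tt G0 A univ (fun _ => mu (Fin n)) -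
      (ε + (Fintype.card V0 : ℝ) ^ 2 * (2 * ε))) ≤ m := fun ε e0 => by
    obtain ⟨u, M, N, a1, a2, a3, a4, a5, a6⟩ := approx' G0 n A hs ε e0
    have b : N = 1 - M := by linarith
    rw [b] at a5 a6
    rw [FF3, tt0] at a6
    have hu : Adm (M ^ 2 + 2 * u * (1 - M)) u M := ⟨a1, a2, by linarith, rfl⟩
    have l1 : β / (β + 4 * ε) ≤ 1 := (div_le_one (by linarith)).mpr (by linarith)
    have l0 : 0 ≤ β / (β + 4 * ε) := by positivity
    obtain ⟨r', M', c1, c2⟩ := scale hu (Real.sqrt_nonneg (β / (β + 4 * ε)))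
      (Real.sqrt_le_one.mpr l1)
    obtain ⟨M'', c3, c4⟩ := mono (β' := β) c1 (by
      rw [Real.sq_sqrt l0, div_mul_eq_mul_div, div_le_iff₀ (by linarith)]
      exact mul_le_mul_of_nonneg_left (by linarith [(abs_le.mp a5).2]) b0.le) b1
    refine le_trans (mul_le_mul_of_nonneg_left (by linarith) (by positivity))
      (c2.trans (c4.trans (H _ _ c3)))
  have c : ContinuousAt (fun ε : ℝ => √(β / (β + 4 * ε)) ^ 23 *
      (tt G0 A univ (fun _ => mu (Fin n)) - (ε + (Fintype.card V0 : ℝ) ^ 2 * (2 * ε)))) 0 := by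
    fun_prop (disch := simp [b0.ne'])
  have d := le_of_tendsto (c.tendsto.mono_left (nhdsWithin_le_nhds (s := Set.Ioi 0)))
    (eventually_nhdsWithin_of_forall fun ε e0 => k ε e0)
  simpa [b0.ne'] using d

end Pool.Agent.H.MP_8790d8_co
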