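import Pool.Agent.H.MP_35cd17_co.F

set_option autoImplicit false
set_option linter.unusedSectionVars false
open Finset Pool.Agent.H.MP_35cd17_co

namespace Pool.Agent.H.MP_8790d8_co

open Classical

variable {V : Type} [Fintype V] [DecidableEq V]

theorem copies {n : ℕ} (G : SimpleGraph V) (H : SimpleGraph (Fin n)) :
    Nat.card (G.Copy H) = H.copyCount G * Nat.card (G ≃g G) := by
  let F : (Σ S : {S : H.Subgraph // Nonempty (G ≃g S.coe)}, G ≃g S.1.coe) → G.Copy H := fun p =>
    ⟨p.1.1.hom.comp p.2.toHom, SimpleGraph.Subgraph.hom_injective.comp p.2.injective⟩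
  have h1 : ∀ p, (F p).toSubgraph = p.1.1 := fun p => by
    simp [F, SimpleGraph.Copy.toSubgraph, SimpleGraph.Subgraph.map_comp]
  have h2 : Function.Bijective F := by
    constructor
    · rintro ⟨⟨S, hS⟩, e⟩ ⟨⟨T, hT⟩, e'⟩ h
      have := (h1 _).symm.trans ((congrArg _ h).trans (h1 _))
      simp only at this
      subst this
      have : e = e' := by
        ext a
        have := DFunLike.congr_fun h a
        exact congrArg Fin.val this
      rw [this]
    · intro f
      exact ⟨⟨⟨f.toSubgraph, ⟨f.isoToSubgraph⟩⟩, f.isoToSubgraph⟩, by ext a; rfl⟩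
  rw [← Nat.card_eq_of_bijective F h2]
  haveI : ∀ S : {S : H.Subgraph // Nonempty (G ≃g S.coe)}, Finite (G ≃g S.1.coe) := fun S =>
    Finite.of_injective (fun e => (e : V → S.1.verts)) DFunLike.coe_injective
  rw [Nat.card_sigma]
  have h3 : ∀ S : {S : H.Subgraph // Nonempty (G ≃g S.coe)},
      Nat.card (G ≃g S.1.coe) = Nat.card (G ≃g G) := fun S => by
    obtain ⟨e0⟩ := S.2
    exact Nat.card_congr
      { toFun := fun e => e.trans e0.symm
        invFun := fun e => e.trans e0
        left_inv := fun e => by ext a; simp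
        right_inv := fun e => by ext a; simp }
  simp only [h3, Finset.sum_const, smul_eq_mul, Finset.card_univ]
  rw [Fintype.card_subtype]
  unfold SimpleGraph.copyCount
  refine congrArg (· * _) ?_
  refine congrArg Finset.card ?_
  ext S
  simp only [Finset.mem_filter, Finset.mem_univ]

theorem ee_eq (n : ℕ) [Nonempty (Fin n)] :
    ee (fun x y : Fin n => x = y) (fun _ => mu (Fin n)) = 1 / n := by
  have hn : (0 : ℝ) < n := by
    have : 0 < n := Fin.pos_iff_nonempty.mpr inferInstance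
    exact_mod_cast this
  rw [ee_dg]
  have : ∀ x : Fin n, dg (fun x y : Fin n => x = y) x = 1 := fun x => by
    unfold dg
    exact (Finset.sum_eq_single x (fun y _ h => if_neg (Ne.symm h))
      (fun h => absurd (Finset.mem_univ x) h)).trans (if_pos rfl)
  simp only [this, mu, Finset.sum_const, Finset.card_univ, Fintype.card_fin, nsmul_eq_mul]
  field_simp

theorem count_close {n : ℕ} [Nonempty (Fin n)] (G : SimpleGraph V) (H : SimpleGraph (Fin n)) :
    |(H.copyCount G : ℝ) * Nat.card (G ≃g G) / (n : ℝ) ^ Fintype.card V -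
      tt G H.Adj univ (fun _ => mu (Fin n))| ≤ (Fintype.card V : ℝ) ^ 2 * (1 / n) := by
  have e : G.Copy H ≃ {φ : V → Fin n //
      (∀ a ∈ univ, ∀ b ∈ univ, G.Adj a b → H.Adj (φ a) (φ b)) ∧ Function.Injective φ} :=
    { toFun := fun f => ⟨f, fun _ _ _ _ h => f.toHom.map_adj h, f.injective⟩
      invFun := fun φ => ⟨⟨φ.1, fun h => φ.2.1 _ (mem_univ _) _ (mem_univ _) h⟩, φ.2.2⟩
      left_inv := fun _ => rfl
      right_inv := fun _ => rfl }
  have h1 : (H.copyCount G : ℝ) * Nat.card (G ≃g G) / (n : ℝ) ^ Fintype.card V =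
      ∑ φ : V → Fin n, (if (∀ a ∈ univ, ∀ b ∈ univ, G.Adj a b → H.Adj (φ a) (φ b)) ∧
        Function.Injective φ then 1 else 0) * ∏ _v : V, mu (Fin n) := by
    rw [← Nat.cast_mul, ← copies, Nat.card_congr e, Nat.card_eq_fintype_card,
      Fintype.card_subtype, ← Finset.sum_mul, Finset.sum_boole]
    unfold mu
    rw [Finset.prod_const, Finset.card_univ, Fintype.card_fin, div_eq_mul_inv, inv_pow]
  have h2 := bad_sum (V := V) (fun x y : Fin n => x = y)
  rw [ee_eq] at h2
  have h0 : 0 ≤ ∏ _v : V, mu (Fin n) := Finset.prod_nonneg fun _ _ => mu_pos.le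
  rw [h1, tt_univ, ← Finset.sum_sub_distrib]
  refine le_trans (Finset.abs_sum_le_sum_abs _ _) (le_trans (Finset.sum_le_sum fun φ _ => ?_) h2)
  rw [← sub_mul, abs_mul, abs_of_nonneg h0]
  refine mul_le_mul_of_nonneg_right ?_ h0
  have h3 := bad_nonneg (fun x y : Fin n => x = y) φ
  unfold ind
  by_cases h4 : ∀ a ∈ univ, ∀ b ∈ univ, G.Adj a b → H.Adj (φ a) (φ b)
  · by_cases h5 : Function.Injective φ
    · rw [if_pos ⟨h4, h5⟩, if_pos h4, sub_self, abs_zero]; exact h3
    · rw [if_neg (fun h => h5 h.2), if_pos h4]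
      obtain ⟨a, b, h6, h7⟩ := Function.not_injective_iff.mp h5
      simpa using bad_one (fun x y : Fin n => x = y) φ a b h7 h6
  · rw [if_neg (fun h => h4 h.1), if_neg h4, sub_self, abs_zero]; exact h3

theorem cl_w (n a b : ℕ) [Nonempty (Fin n)] (hab : a ≤ b) (hb : b ≤ n) (y : Fin 3) :
    (![a / n, b / n - a / n, 1 - b / n] : Fin 3 → ℝ) y =
      ∑ x, if cl n a b x = y then mu (Fin n) else 0 := by
  have c1 := cnt n a (hab.trans hb)
  have c2 := cnt n b hb
  have hm : mu (Fin n) = 1 / n := by simp [mu]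
  fin_cases y
  · show (a : ℝ) / n = _
    rw [← c1, Finset.sum_div]
    refine Finset.sum_congr rfl fun x _ => ?_
    unfold cl
    by_cases h1 : x.val < a <;> by_cases h2 : x.val < b <;> simp [h1, h2, hm]
  · show (b : ℝ) / n - a / n = _
    rw [← c1, ← c2, Finset.sum_div, Finset.sum_div, ← Finset.sum_sub_distrib]
    refine Finset.sum_congr rfl fun x _ => ?_
    unfold cl
    by_cases h1 : x.val < a
    · have h2 : x.val < b := by omega
      simp [h1, h2, hm]
    · by_cases h2 : x.val < b <;> simp [h1, h2, hm]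
  · show 1 - (b : ℝ) / n = _
    rw [← sum_mu (X := Fin n), ← c2, Finset.sum_div, ← Finset.sum_sub_distrib]
    refine Finset.sum_congr rfl fun x _ => ?_
    unfold cl
    by_cases h1 : x.val < a
    · have h2 : x.val < b := by omega
      simp [h1, h2, hm]
    · by_cases h2 : x.val < b <;> simp [h1, h2, hm]

theorem ee_small (n z : ℕ) [Nonempty (Fin n)] (E : Fin n → Fin n → Prop)
    (h : ∀ x y, E x y → x = y ∨ x.val = z ∨ y.val = z) :
    ee E (fun _ => mu (Fin n)) ≤ 3 * (1 / n) := by
  have hn : (0 : ℝ) < n := by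
    have : 0 < n := Fin.pos_iff_nonempty.mpr inferInstance
    exact_mod_cast this
  have c : (∑ y : Fin n, if y.val = z then (1 : ℝ) else 0) ≤ 1 := by
    rw [Finset.sum_boole]
    have : (Finset.univ.filter fun y : Fin n => y.val = z).card ≤ 1 :=
      Finset.card_le_one.mpr fun a ha b hb => Fin.ext (by
        rw [(Finset.mem_filter.mp ha).2, (Finset.mem_filter.mp hb).2])
    exact_mod_cast this
  have a : ∑ x, dg E x ≤ ∑ x : Fin n, ∑ y : Fin n, ((if y = x then (1 : ℝ) else 0) +
      (if x.val = z then (1 : ℝ) else 0) + (if y.val = z then (1 : ℝ) else 0)) := by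
    refine Finset.sum_le_sum fun x _ => Finset.sum_le_sum fun y _ => ?_
    have n1 : (0 : ℝ) ≤ if y = x then 1 else 0 := by split_ifs <;> norm_num
    have n2 : (0 : ℝ) ≤ if x.val = z then 1 else 0 := by split_ifs <;> norm_num
    have n3 : (0 : ℝ) ≤ if y.val = z then 1 else 0 := by split_ifs <;> norm_num
    by_cases h1 : E x y
    · rw [if_pos h1]
      rcases h x y h1 with h2 | h2 | h2
      · rw [if_pos h2.symm]; linarith
      · rw [if_pos h2]; linarith
      · rw [if_pos h2]; linarith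
    · rw [if_neg h1]; linarith
  simp only [Finset.sum_add_distrib, Finset.sum_ite_eq', Finset.mem_univ, if_true,
    Finset.sum_const, Finset.card_univ, Fintype.card_fin, nsmul_eq_mul, ← Finset.mul_sum] at a
  have b := mul_le_mul_of_nonneg_left c hn.le
  rw [ee_dg]
  refine le_trans (mul_le_mul_of_nonneg_left (show _ ≤ 3 * (n : ℝ) by linarith) (sq_nonneg _))
    (le_of_eq ?_)
  unfold mu; rw [Fintype.card_fin]; field_simp

theorem col_close (G : SimpleGraph V) (A : Fin 3 → Fin 3 → Prop) (n a b z : ℕ)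
    [Nonempty (Fin n)] (hab : a ≤ b) (hb : b ≤ n) (H : SimpleGraph (Fin n))
    (h : ∀ x y, x ≠ y → x.val ≠ z → y.val ≠ z → (H.Adj x y ↔ A (cl n a b x) (cl n a b y))) :
    |ee H.Adj (fun _ => mu (Fin n)) - ee A ![a / n, b / n - a / n, 1 - b / n]| ≤ 3 * (1 / n) ∧
    |tt G H.Adj Finset.univ (fun _ => mu (Fin n)) -
      tt G A Finset.univ ![a / n, b / n - a / n, 1 - b / n]| ≤
        (Fintype.card V : ℝ) ^ 2 * (3 * (1 / n)) := by
  have hw := cl_w n a b hab hb
  rw [← push_tt G A (cl n a b) _ _ hw, ← push_ee A (cl n a b) _ _ hw]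
  have z1 := ee_small n z (fun x y => H.Adj x y ∧ ¬ A (cl n a b x) (cl n a b y)) fun x y hh => by
    by_contra hc
    push Not at hc
    exact hh.2 ((h x y hc.1 hc.2.1 hc.2.2).mp hh.1)
  have z2 := ee_small n z (fun x y => A (cl n a b x) (cl n a b y) ∧ ¬ H.Adj x y) fun x y hh => by
    by_contra hc
    push Not at hc
    exact hh.2 ((h x y hc.1 hc.2.1 hc.2.2).mpr hh.1)
  have k1 := ee_edit H.Adj (fun x y => A (cl n a b x) (cl n a b y))
  have k2 := ee_edit (fun x y => A (cl n a b x) (cl n a b y)) H.Adj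
  have k3 := edit G H.Adj (fun x y => A (cl n a b x) (cl n a b y))
  have k4 := edit G (fun x y => A (cl n a b x) (cl n a b y)) H.Adj
  have k5 := mul_le_mul_of_nonneg_left z1 (sq_nonneg (Fintype.card V : ℝ))
  have k6 := mul_le_mul_of_nonneg_left z2 (sq_nonneg (Fintype.card V : ℝ))
  constructor <;> rw [abs_le] <;> constructor <;> linarith

theorem col_le (A : Fin 3 → Fin 3 → Prop) (n a b : ℕ)
    [Nonempty (Fin n)] (hab : a ≤ b) (hb : b ≤ n) (H : SimpleGraph (Fin n))
    (h : ∀ x y, H.Adj x y → A (cl n a b x) (cl n a b y)) :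
    ee H.Adj (fun _ => mu (Fin n)) ≤ ee A ![a / n, b / n - a / n, 1 - b / n] := by
  rw [← push_ee A (cl n a b) _ _ (cl_w n a b hab hb)]
  have k1 := ee_edit H.Adj (fun x y => A (cl n a b x) (cl n a b y))
  have z1 : ee (fun x y => H.Adj x y ∧ ¬ A (cl n a b x) (cl n a b y))
      (fun _ => mu (Fin n)) = 0 := by
    refine Finset.sum_eq_zero fun x _ => Finset.sum_eq_zero fun y _ => ?_
    rw [if_neg (fun hh => hh.2 (h x y hh.1)), mul_zero]
  linarith

theorem ee_graph {n : ℕ} [Nonempty (Fin n)] (H : SimpleGraph (Fin n)) :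
    2 * (H.edgeSet.ncard : ℝ) / (n : ℝ) ^ 2 = ee H.Adj (fun _ => mu (Fin n)) := by
  rw [ee_dg]
  have h1 : ∀ x, dg H.Adj x = H.degree x := fun x => by
    unfold dg
    rw [Finset.sum_boole, ← SimpleGraph.card_neighborFinset_eq_degree,
      SimpleGraph.neighborFinset_eq_filter]
  have h2 := H.sum_degrees_eq_twice_card_edges
  have h3 : (∑ x, (H.degree x : ℝ)) = 2 * H.edgeFinset.card := by exact_mod_cast h2
  simp only [h1]
  rw [h3, ← SimpleGraph.coe_edgeFinset, Set.ncard_coe_finset]
  unfold mu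
  rw [Fintype.card_fin]
  ring

end Pool.Agent.H.MP_8790d8_co
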