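import Pool.Agent.H.MP_8790d8_co.D
import Pool.Agent.H.MP_8790d8_co.E

set_option autoImplicit false

namespace Pool.Agent.H.MP_8790d8_co

noncomputable def rq (β q : ℝ) : ℝ := 1 - √(1 - β * (1 - q ^ 2))
noncomputable def Mq (β q : ℝ) : ℝ := 1 - √(1 - β * (1 - q ^ 2)) + √β * q
noncomputable def ff (β q : ℝ) : ℝ := P (rq β q) (Mq β q)

theorem param {β u M : ℝ} (h : Adm β u M) :
    ∃ q ∈ Set.Icc (0 : ℝ) 1, rq β q = u ∧ Mq β q = M := by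
  have hβ0 := (adm_le h).1
  obtain ⟨hu, huM, hN, hβ⟩ := h
  have p1 := mul_nonneg hu (sub_nonneg.mpr hN)
  have p3 : M ≤ √β := Real.le_sqrt_of_sq_le (by linarith)
  have p4 : √β * ((M - u) / √β) = M - u := by
    rcases eq_or_lt_of_le (Real.sqrt_nonneg β) with h | h
    · rw [← h]; linarith
    · field_simp
  have p5 : β * ((M - u) / √β) ^ 2 = (M - u) ^ 2 := by
    conv_rhs => rw [← p4]
    rw [mul_pow, Real.sq_sqrt hβ0]
  have p6 : √(1 - β * (1 - ((M - u) / √β) ^ 2)) = 1 - u := by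
    rw [show 1 - β * (1 - ((M - u) / √β) ^ 2) = (1 - u) ^ 2 by
      rw [mul_sub, p5]; linarith]
    exact Real.sqrt_sq (by linarith)
  refine ⟨(M - u) / √β, ⟨div_nonneg (by linarith) (Real.sqrt_nonneg _),
    div_le_one_of_le₀ (by linarith) (Real.sqrt_nonneg _)⟩, ?_⟩
  unfold rq Mq
  rw [p6, p4]
  constructor <;> ring

theorem adm_q {β q : ℝ} (hβ : β ∈ Set.Icc (0 : ℝ) 1) (hq : q ∈ Set.Icc (0 : ℝ) 1) :
    Adm β (rq β q) (Mq β q) := by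
  unfold rq Mq
  set s := √(1 - β * (1 - q ^ 2)) with hs
  have q1 : q ^ 2 ≤ 1 := pow_le_one₀ hq.1 hq.2
  have q2 : 0 ≤ β * (1 - q ^ 2) := mul_nonneg hβ.1 (by linarith)
  have q3 : 0 ≤ β * q ^ 2 := mul_nonneg hβ.1 (sq_nonneg q)
  have q4 : 0 ≤ 1 - β * (1 - q ^ 2) := by linarith [hβ.2]
  have s1 : s ^ 2 = 1 - β * (1 - q ^ 2) := Real.sq_sqrt q4
  have s2 : s ≤ 1 := Real.sqrt_le_one.mpr (by linarith)
  have y0 : 0 ≤ √β * q := mul_nonneg (Real.sqrt_nonneg _) hq.1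
  have y1 : (√β * q) ^ 2 = β * q ^ 2 := by rw [mul_pow, Real.sq_sqrt hβ.1]
  have y2 : √β * q ≤ s := Real.le_sqrt_of_sq_le (by linarith [hβ.2])
  exact ⟨by linarith, by linarith, by linarith, by linear_combination y1 - s1⟩

theorem P_cont : Continuous fun z : ℝ × ℝ => P z.1 z.2 := by
  unfold P P1 P2; fun_prop

theorem ff_cont : Continuous fun z : ℝ × ℝ => ff z.1 z.2 := by
  unfold ff P P1 P2 rq Mq; fun_prop

theorem ff0 (β : ℝ) : ff β 0 = P (1 - √(1 - β)) (1 - √(1 - β)) := by simp [ff, rq, Mq]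

theorem P0 (x : ℝ) : P 0 x = x ^ 23 := by unfold P P1 P2; ring

theorem ff1 (β : ℝ) : ff β 1 = √β ^ 23 := by simp [ff, rq, Mq, P0]

theorem adm0 {β : ℝ} (hβ : β ∈ Set.Icc (0 : ℝ) 1) : Adm β (1 - √(1 - β)) (1 - √(1 - β)) := by
  simpa [rq, Mq] using adm_q hβ (q := 0) ⟨le_rfl, zero_le_one⟩

theorem iff_adm {β : ℝ} (hβ : β ∈ Set.Icc (0 : ℝ) 1) (m : ℝ) :
    (∀ q ∈ Set.Icc (0 : ℝ) 1, ff β q ≤ m) ↔ ∀ r M, Adm β r M → P r M ≤ m := by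
  constructor
  · intro h r M hA
    obtain ⟨q, hq, rfl, rfl⟩ := param hA
    exact h q hq
  · intro h q hq
    exact h _ _ (adm_q hβ hq)

theorem phases : ∃ γ δ : ℝ, 0 < γ ∧ γ < δ ∧ δ < 1 ∧
    (∀ β ∈ Set.Icc 0 γ, ∀ q ∈ Set.Icc (0 : ℝ) 1, ff β q ≤ ff β 0) ∧
    (∀ β ∈ Set.Icc γ δ, ∃ t ∈ Set.Ioo (0 : ℝ) 1, ∀ q ∈ Set.Icc (0 : ℝ) 1, ff β q ≤ ff β t) ∧
    (∀ β ∈ Set.Icc δ 1, ∀ q ∈ Set.Icc (0 : ℝ) 1, ff β q ≤ ff β 1) ∧
    ∀ β ∈ Set.Ioo γ δ, (¬ ∀ q ∈ Set.Icc (0 : ℝ) 1, ff β q ≤ ff β 0) ∧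
      ¬ ∀ q ∈ Set.Icc (0 : ℝ) 1, ff β q ≤ ff β 1 := by
  have r1 : ∀ β : ℝ, β ≤ (1 / 5) ^ 2 → √β ≤ 1 / 5 := fun β h =>
    Real.sqrt_le_iff.mpr ⟨by norm_num, h⟩
  have i0 : ((1 / 100) ^ 2 : ℝ) ∈ Set.Icc (0 : ℝ) 1 := by constructor <;> norm_num
  have i1 : ((3 / 25) ^ 2 : ℝ) ∈ Set.Icc (0 : ℝ) 1 := by constructor <;> norm_num
  have i2 : ((1 / 5) ^ 2 : ℝ) ∈ Set.Icc (0 : ℝ) 1 := by constructor <;> norm_num
  obtain ⟨r, M, w1, w2, w3⟩ := Wit (adm0 i1)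
  refine skeleton ff ff_cont ((1 / 100) ^ 2) ((3 / 25) ^ 2) ((1 / 5) ^ 2) (1 / 2)
    (1 - 1 / 400000) (by norm_num) (by norm_num) (by norm_num) (by norm_num) (by norm_num)
    (by norm_num) _ _ (fun _ => Iff.rfl) (fun _ => Iff.rfl) ?_ ?_ ?_ ?_ ?_ ?_ ?_ ?_
  · rw [iff_adm i0, ff0]
    exact fun r M h => Sstart h (adm0 i0)
  · rw [iff_adm i2, ff1, Real.sqrt_sq (by norm_num)]
    exact fun r M h => Kend h (adm0 i2)
  · rw [iff_adm i1, ff0]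
    exact fun h => absurd (h r M w1) (not_le.mpr w2)
  · rw [iff_adm i1, ff1, Real.sqrt_sq (by norm_num)]
    exact fun h => absurd (h r M w1) (not_le.mpr w3)
  · intro β β' b0 b1 _ b3
    have j : β ∈ Set.Icc (0 : ℝ) 1 := ⟨b0, by linarith⟩
    have j' : β' ∈ Set.Icc (0 : ℝ) 1 := ⟨by linarith, by linarith⟩
    rcases eq_or_lt_of_le b0 with h | h
    · intro _ q _
      simp [← h, ff, rq, Mq]
    rw [iff_adm j, iff_adm j', ff0, ff0]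
    have := Sdown (s := 1 - √(1 - β)) (s' := 1 - √(1 - β')) (Real.sqrt_pos.mpr h)
      (Real.sqrt_le_sqrt b1) (r1 β' b3)
    rw [Real.sq_sqrt j.1, Real.sq_sqrt j'.1] at this
    exact this (adm0 j) (adm0 j')
  · intro β β' b0 b1 b2
    have b3 : 0 < β := lt_of_lt_of_le (by norm_num) b0
    rw [iff_adm ⟨b3.le, by linarith⟩, iff_adm ⟨by linarith, b2⟩, ff1, ff1]
    exact Kup b3 b1
  · intro β hβ q hq
    have j : β ∈ Set.Icc (0 : ℝ) 1 := ⟨by linarith [hβ.1], by linarith [hβ.2]⟩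
    have a1 := adm_q j (q := q) ⟨hq.1, by linarith [hq.2]⟩
    have a2 := adm0 j
    have e0 := Real.sqrt_nonneg β
    have e1 := r1 β hβ.2
    have a3 : Mq β q = rq β q + √β * q := rfl
    rw [ff0]
    unfold ff
    generalize 1 - √(1 - β) = s at *
    generalize rq β q = r at *
    generalize Mq β q = M at *
    rw [← Real.sq_sqrt j.1] at a1 a2
    have a4 := (sfacts e0 e1 a2).2.1
    have a5 := (rfacts e0 a1 a2).2
    refine small e0 e1 a1 a2 ?_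
    nlinarith [sq_nonneg (M - r), mul_nonneg e0 (sub_nonneg.mpr hq.2),
      mul_nonneg e0 (sub_nonneg.mpr e1)]
  · intro β hβ q hq
    have j : β ∈ Set.Icc (0 : ℝ) 1 := ⟨by linarith [hβ.1], by linarith [hβ.2]⟩
    have a1 := adm_q j (q := q) ⟨by linarith [hq.1], hq.2⟩
    have a2 := adm0 j
    have e0 : 1 / 100 ≤ √β := Real.le_sqrt_of_sq_le hβ.1
    have e1 := r1 β hβ.2
    have e2 : 0 < √β := by linarith
    have a3 : Mq β q = rq β q + √β * q := rfl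
    rw [ff1]
    unfold ff
    generalize 1 - √(1 - β) = s at *
    generalize rq β q = r at *
    generalize Mq β q = M at *
    rw [← Real.sq_sqrt j.1] at a1 a2
    obtain ⟨θ, rfl, t2⟩ := theta e2 a1 a2
    refine LK e2 e1 a1 ?_ t2
    have e3 : (1 / 100) ^ 3 ≤ √β ^ 3 := pow_le_pow_left₀ (by norm_num) e0 3
    have e4 : q ≤ θ := le_of_mul_le_mul_right (by linarith [a1.1]) e2
    linarith [hq.1]

end Pool.Agent.H.MP_8790d8_co
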